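import Pool.Agent.Helper68.QS.St1

/-! Project QD, straightening, module EQI: intertwining implies invariance. -/

open MeasureTheory Set Filter Topology Complex
open scoped ContDiff ComplexConjugate ENNReal

namespace Pool.Agent.Helper62.QS

open Pool.Agent.Helper68.QS Pool.Agent.Helper68.QC
open Pool.Agent.Helper61.QE (D Dx rf SU Fu FD Ab sy nuT muT syX syY Kap En Et)

lemma den_subs (A : SL) {z w : ℂ} (hz : den A z = 0) (hw : den A w = 0) : z = w := by
  have hd := A.det_coe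
  rw [Matrix.det_fin_two] at hd
  unfold den at hz hw
  have h1 : A 1 0 * (z - w) = 0 := by linear_combination hz - hw
  rcases mul_eq_zero.1 h1 with h2 | h2
  · exfalso
    rw [h2, zero_mul, zero_add] at hz
    rw [h2, hz] at hd
    simp at hd
  · exact sub_eq_zero.1 h2

lemma isOpen_den (A : SL) : IsOpen {z : ℂ | den A z ≠ 0} := by
  have : Continuous (den A) := by
    unfold den
    fun_prop
  exact isOpen_ne_fun this continuous_const

lemma ae_den (A : SL) : ∀ᵐ z : ℂ, den A z ≠ 0 := by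
  rw [ae_iff]
  have h1 : {z : ℂ | ¬ den A z ≠ 0}.Subsingleton := by
    intro z hz w hw
    simp only [ne_eq, not_not, mem_ofPred_eq] at hz hw
    exact den_subs A hz hw
  exact h1.countable.measure_zero _

theorem pEQI (hCVM : Pool.Agent.Helper68.QC.StCVM) (hPRW : Pool.Agent.Helper68.QC.StPRW)
    (hCHR : Pool.Agent.Helper68.QC.StCHR) (hUNW : Pool.Agent.Helper68.QC.StUNW)
    (hSUB : Pool.Agent.Helper61.QE.StSUB) : Pool.Agent.Helper68.QS.StEQI := by
  intro k hk μ hμ A B hAB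
  obtain ⟨-, hder, hdiff, -⟩ := hSUB
  obtain ⟨a, b, hwd, hba, -, ha0, -⟩ := hCVM k hk μ hμ
  obtain ⟨h1, h2, -, -⟩ := hAB
  have hVo := isOpen_den A
  have hWo := isOpen_den B
  have hdA : ∀ z ∈ {z : ℂ | den A z ≠ 0}, deriv (mob A) z = (den A z ^ 2)⁻¹ := fun z hz =>
    (hder A z hz).deriv
  have hwdV := hwd.mono (subset_univ {z : ℂ | den A z ≠ 0})
  have p1 := hPRW univ {z : ℂ | den A z ≠ 0} (nq μ) a b (mob A) isOpen_univ hVo
    (fun z hz => (hder A z hz).differentiableAt.differentiableWithinAt)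
    (fun z hz w hw he => by
      have h3 := hdiff A z w hz hw
      rw [he, sub_self] at h3
      have h4 := (div_eq_zero_iff.1 h3.symm).resolve_right (mul_ne_zero hz hw)
      exact sub_eq_zero.1 h4)
    (mapsTo_univ _ _)
    (fun z hz => by
      rw [hdA z hz]
      exact inv_ne_zero (pow_ne_zero _ hz)) hwd
  have hF : ContDiffOn ℝ ∞ (mob B) {z : ℂ | den B z ≠ 0} := by
    have f1 : ContDiff ℝ ∞ (fun z : ℂ => B 0 0 * z + B 0 1) := by fun_prop
    have f2 : ContDiff ℝ ∞ (fun z : ℂ => B 1 0 * z + B 1 1) := by fun_prop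
    have f3 : ContDiffOn ℝ ∞ (fun z : ℂ => (B 1 0 * z + B 1 1)⁻¹) {z : ℂ | den B z ≠ 0} :=
      ContDiffOn.inv f2.contDiffOn (fun z hz => hz)
    have f4 := f1.contDiffOn.mul f3
    refine f4.congr fun z hz => ?_
    simp only [mob, den, div_eq_mul_inv]
  have p2 := hCHR {z : ℂ | den A z ≠ 0} {z : ℂ | den B z ≠ 0} (nq μ) a b (mob B) hVo hWo hwdV
    (fun z hz hB => hz ((h1 z).2 hB)) hF
  have p3 := hUNW {z : ℂ | den A z ≠ 0} _ _ _ _ _ _ hVo
    (fun z hz => (h2 z hz : nq μ (mob A z) = mob B (nq μ z))) p1 p2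
  have q1 := (ae_restrict_iff' hVo.measurableSet).1 p3.1
  have q2 := (ae_restrict_iff' hVo.measurableSet).1 p3.2
  unfold InvB
  filter_upwards [q1, q2, ae_den A] with z e1 e2 hz
  have hz' : z ∈ {z : ℂ | den A z ≠ 0} := hz
  have hBz : den B (nq μ z) ≠ 0 := fun hB => hz ((h1 z).2 hB)
  have e3 := e1 hz'
  have e4 := e2 hz'
  have hdd : DifferentiableAt ℂ (mob B) (nq μ z) := (hder B _ hBz).differentiableAt
  rw [hdA z hz', dzb_holo hdd, zero_mul, add_zero] at e3
  rw [hdA z hz', dzb_holo hdd, zero_mul, add_zero, hba z, hba (mob A z)] at e4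
  have hA1 : (den A z ^ 2)⁻¹ ≠ 0 := inv_ne_zero (pow_ne_zero _ hz)
  have e5 : μ (mob A z) * conj ((den A z ^ 2)⁻¹) = μ z * (den A z ^ 2)⁻¹ := by
    apply mul_left_cancel₀ (ha0 (mob A z))
    linear_combination e4 - μ z * e3
  have hcz : conj (den A z) ≠ 0 := by
    intro h
    exact hz ((map_eq_zero (starRingEnd ℂ)).1 h)
  rw [map_inv₀, map_pow] at e5
  field_simp at e5
  linear_combination e5

end Pool.Agent.Helper62.QS
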