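import Pool.Agent.Helper68.QS.St1

/-! Project QD, straightening, module LFH: lifting of holomorphy. -/

open MeasureTheory Set Filter Topology Complex
open scoped ContDiff ComplexConjugate ENNReal

namespace Pool.Agent.Helper62.QS

open Pool.Agent.Helper68.QS Pool.Agent.Helper68.QC
open Pool.Agent.Helper61.QE (D Dx rf SU Fu FD Ab sy nuT muT syX syY Kap En Et)

theorem pLFH : Pool.Agent.Helper68.QS.StLFH := by
  intro U V Q h hU hV hVc hQ hQi hQm hh hne hF
  have hQc : ∀ z ∈ U, ContinuousAt Q z := fun z hz => hQ.continuousAt (hU.mem_nhds hz)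
  have han : AnalyticOnNhd ℂ h V := hh.analyticOnNhd hV
  have hdan : AnalyticOnNhd ℂ (deriv h) V := han.deriv
  have reg : ∀ z ∈ U, deriv h (Q z) ≠ 0 → DifferentiableAt ℂ Q z := by
    intro z hz hd
    have hs : HasStrictDerivAt h (deriv h (Q z)) (Q z) := (han _ (hQm hz)).hasStrictDerivAt
    have h1 := hs.to_localInverse hd
    have h2 := hs.eventually_left_inverse hd
    have h3 : ∀ᶠ y in 𝓝 z, hs.localInverse _ _ _ hd (h (Q y)) = Q y := (hQc z hz).eventually h2
    have h4 : DifferentiableAt ℂ (fun y => h (Q y)) z := hF.differentiableAt (hU.mem_nhds hz)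
    have h5 : DifferentiableAt ℂ (fun y => hs.localInverse _ _ _ hd (h (Q y))) z :=
      DifferentiableAt.comp z (f := fun y => h (Q y)) h1.hasDerivAt.differentiableAt h4
    refine h5.congr_of_eventuallyEq ?_
    filter_upwards [h3] with y hy using hy.symm
  intro z hz
  apply DifferentiableAt.differentiableWithinAt
  have hx0 : Q z ∈ V := hQm hz
  have hev : ∀ᶠ x in 𝓝[≠] (Q z), deriv h x ≠ 0 := by
    rcases (hdan _ hx0).eventually_eq_zero_or_eventually_ne_zero with h0 | h0
    · exfalso
      obtain ⟨x, hx, hxne⟩ := hne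
      exact hxne (hdan.eqOn_zero_of_preconnected_of_eventuallyEq_zero hVc hx0 h0 hx)
    · exact h0
  have hUe : ∀ᶠ y in 𝓝[≠] z, y ∈ U := mem_nhdsWithin_of_mem_nhds (hU.mem_nhds hz)
  have htend : Tendsto Q (𝓝[≠] z) (𝓝[≠] (Q z)) := by
    rw [tendsto_nhdsWithin_iff]
    refine ⟨(hQc z hz).tendsto.mono_left nhdsWithin_le_nhds, ?_⟩
    filter_upwards [hUe, self_mem_nhdsWithin] with y hy hyz
    exact fun he => hyz (hQi hy hz he)
  have hp : ∀ᶠ y in 𝓝[≠] z, DifferentiableAt ℂ Q y := by
    filter_upwards [hUe, htend.eventually hev] with y hy hd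
    exact reg y hy hd
  exact (analyticAt_of_differentiable_on_punctured_nhds_of_continuousAt hp
    (hQc z hz)).differentiableAt

end Pool.Agent.Helper62.QS
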